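import Mathlib
import Pool.Agent.X72.Multithreshold

/-! The threshold number is not bounded by a function of the threshold dimension. -/

namespace Pool.Agent.Results.MP_105209_co.NoFunction

open Pool.Agent.X72.Multithreshold

/-- The threshold number is unbounded on the finite graphs of threshold dimension `2`; so there is
no `f` with `Θ(G) ≤ f(t(G))` for all finite graphs `G`. -/
theorem result : (∀ C : ℕ, ∃ (V : Type) (_ : Finite V) (G : SimpleGraph V),
      thresholdDim G = 2 ∧ (C : ℕ∞) < Theta G) ∧
    ¬ ∃ f : ℕ → ℕ, ∀ (V : Type) (_ : Finite V) (G : SimpleGraph V) (m : ℕ),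
      thresholdDim G = m → Theta G ≤ f m := by
  have key : ∀ C : ℕ, ∃ (V : Type) (_ : Finite V) (G : SimpleGraph V),
      thresholdDim G = 2 ∧ (C : ℕ∞) < Theta G := by
    intro C
    refine ⟨Vert (2 * C + 2), inferInstance, Gd (2 * C + 2), dim_eq_two _ (by omega), ?_⟩
    apply lt_theta
    intro k hk
    apply not_kThreshold
    have : k * (2 * (2 * C + 2)) ≤ C * (2 * (2 * C + 2)) := Nat.mul_le_mul_right _ hk
    nlinarith
  refine ⟨key, ?_⟩
  rintro ⟨f, hf⟩
  obtain ⟨V, hV, G, h1, h2⟩ := key (f 2)
  exact absurd (hf V hV G 2 h1) (not_le.mpr h2)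

end Pool.Agent.Results.MP_105209_co.NoFunction
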